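import Pool.Agent.N620.FS.Main

set_option autoImplicit false

/-!
Turing determinacy implies a free set theorem for ALL maps from an uncountable set of reals to
countable sets of reals: there is an uncountable, in fact Marczewski positive, free set. In
particular, under Turing determinacy, no uncountable set of reals has a total preordering with
countable initial segments, the union of every chain of countable sets of reals is countable, and
Freiling's axiom of symmetry for countable sets holds on every uncountable set of reals. Stated as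
an explicit reduction: to the map we attach certain Turing invariant sets of reals, and if they are
determined, there is a free set. (Under the continuum hypothesis there is a map without a free set
with two elements.)
-/

namespace Pool.Agent.Results.MP_057cde_lc.FreeSets

open Pool.Agent.H685R3 Pool.Agent.N620.WP Pool.Agent.N620.WU Pool.Agent.N620.FS

/-- Turing reducibility of elements of the Cantor space (Mathlib's Turing reducibility, for
characteristic functions). -/
def Reducible (x y : ℕ → Bool) : Prop := TuringReducible (charFn x) (charFn y)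

/-- `x` and `y` have the same Turing degree. -/
def SameDegree (x y : ℕ → Bool) : Prop := Reducible x y ∧ Reducible y x

/-- The join `x ⊕ y`. -/
def Join (x y : ℕ → Bool) : ℕ → Bool := fun n => if n % 2 = 0 then x (n / 2) else y (n / 2)

/-- The `k`-th column of `x`. -/
def Column (x : ℕ → Bool) (k : ℕ) : ℕ → Bool := fun n => x (Nat.pair k n)

/-- `x` is in `X` and all members of `f x` are columns of `v`. -/
def Enumerates (X : Set (ℕ → Bool)) (f : (ℕ → Bool) → Set (ℕ → Bool)) (x v : ℕ → Bool) : Prop :=
  x ∈ X ∧ ∀ y ∈ f x, ∃ k, Column v k = y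

/-- The Turing saturation of a set. -/
def Saturation (B : Set (ℕ → Bool)) : Set (ℕ → Bool) := {x | ∃ x' ∈ B, SameDegree x' x}

/-- The sets attached to the map `f` on `X` have the property `P`. The sets attached to `f` and `X`
are the Turing saturation of the set of all `y` such that for all `e` the bit `F y e` says correctly
whether there is a `v` computable from `y` such that `Enumerates X f (Ψ y e) v`, and, for all reals
`w` and `u`, the Turing saturation of the set of all `(x ⊕ v) ⊕ u` with `Enumerates X f x v` and `v`
computable from `x ⊕ w`. -/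
def Attached (P : Set (ℕ → Bool) → Prop) (Ψ : (ℕ → Bool) → ℕ → ℕ → Bool) (F : (ℕ → Bool) → ℕ → Bool)
    (X : Set (ℕ → Bool)) (f : (ℕ → Bool) → Set (ℕ → Bool)) : Prop :=
  P (Saturation {y | ∀ e, (∃ v, Reducible v y ∧ Enumerates X f (Ψ y e) v) ↔ F y e = true}) ∧
    ∀ w u, P (Saturation {y | ∃ x v, Enumerates X f x v ∧ Reducible v (Join x w) ∧
      y = Join (Join x v) u})

/-- `h` parametrizes a Cantor set. -/
def IsCantor (h : (ℕ → Bool) → ℕ → Bool) : Prop := Continuous h ∧ Function.Injective h

theorem saturation_eq {E : ℕ → List Bool → ℕ → Bool → Prop} {N : (ℕ → Bool) → (ℕ → Bool) → Prop} :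
    Saturation {y | ∀ e, (∃ v, Reducible v y ∧ N (Psi (VE E) e y) v) ↔ G (VE E) e y 0 = true} =
      SN E N := by
  ext x
  constructor
  · rintro ⟨x', h, h1, h2⟩
    exact ⟨x', h1, h2, h⟩
  · rintro ⟨x', h1, h2, h⟩
    exact ⟨x', h, h1, h2⟩

theorem saturation_eq' {N : (ℕ → Bool) → (ℕ → Bool) → Prop} {w u : ℕ → Bool} :
    Saturation {y | ∃ x v, N x v ∧ Reducible v (Join x w) ∧ y = Join (Join x v) u} =
      DD (AA N w) u := by
  ext x
  constructor
  · rintro ⟨x', ⟨a, v, h, h', rfl⟩, h1, h2⟩
    exact ⟨Join a v, join_mem_AA h h', h1, h2⟩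
  · rintro ⟨a, ha, h1, h2⟩
    refine ⟨_, ⟨_, _, ha.1, ha.2, rfl⟩, ?_⟩
    have h3 : Join (Pool.Agent.Helper227.evn a) (Pool.Agent.Helper227.odd' a) = a :=
      Pool.Agent.Helper227.join_evn_odd a
    rw [h3]
    exact ⟨h1, h2⟩

/-- There are Borel maps `Ψ` (from the Cantor space to sequences of elements of the Cantor space) and
`F` such that for every set `X` of reals and every map `f` to countable sets of reals the sets
attached to `f` and `X` are Turing invariant, and if they are determined and `X` is uncountable,
then there are a Cantor set, parametrized by `h`, and a subset `Y` of its intersection with `X` such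
that `Y` meets every Cantor set contained in it (so that `Y` is uncountable), and `x ∉ f y` for any
two different members `x`, `y` of `Y`. -/
theorem result :
    ∃ (Ψ : (ℕ → Bool) → ℕ → ℕ → Bool) (F : (ℕ → Bool) → ℕ → Bool), Measurable Ψ ∧ Measurable F ∧
      ∀ (X : Set (ℕ → Bool)) (f : (ℕ → Bool) → Set (ℕ → Bool)), (∀ x ∈ X, (f x).Countable) →
        Attached TuringInvariant Ψ F X f ∧ (Attached Determined Ψ F X f → ¬ X.Countable →
          ∃ h, IsCantor h ∧ ∃ Y ⊆ X ∩ Set.range h, (∀ k, IsCantor k → ∃ c, h (k c) ∈ Y) ∧
            ¬ Y.Countable ∧ ∀ x ∈ Y, ∀ y ∈ Y, x ≠ y → x ∉ f y) := by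
  obtain ⟨E, hE, hE'⟩ := Pool.Agent.Y588.PD.exists_fam
  refine ⟨fun y e => Psi (VE E) e y, fun y e => G (VE E) e y 0, measurable_psi hE, measurable_G,
    fun X f hf => ⟨⟨?_, fun w u => ?_⟩, fun hD hX => ?_⟩⟩
  · rw [saturation_eq]
    exact inv_SN
  · rw [saturation_eq']
    exact inv_DD u
  · obtain ⟨h1, h2⟩ := hD
    rw [saturation_eq] at h1
    obtain ⟨-, p, q, h3, h4, h5, h6⟩ := weak_unif (N := Enm X f) hE hE'
      (by rwa [exists_enm hf]) h1 fun w u => by
        have h3 := h2 w u
        rwa [saturation_eq'] at h3
    obtain ⟨g, hg, Y, hY, hY', hfree⟩ := free h3 h4 h5 h6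
    exact ⟨g, hg, Y, hY, hY', not_countable_of_pos hg.2 fun k hk hk' => hY' k ⟨hk, hk'⟩, hfree⟩

end Pool.Agent.Results.MP_057cde_lc.FreeSets
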