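import Pool.Agent.N620.RC.Main

set_option autoImplicit false

/-!
Turing determinacy and regularity properties of arbitrary sets of reals. To two sets `B` and `C` of
reals we attach one Turing invariant set of reals, the set of all `z` at which `B` exceeds `C`. If
it is determined, then (a) if all Borel preimages of `C` have the Baire property and some Borel
preimage of `B` has not, then `B` exceeds `C` on a cone, (b) if `C` is universally measurable and
`B` is not, then `B` exceeds `C` on a cone, and (c) it is impossible that `B` is universally
measurable and some Borel preimage of `B` fails to have the Baire property, while `C` is not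
universally measurable and all Borel preimages of `C` have the Baire property. So under Turing
determinacy one of the two regularity classes is contained in the other.
-/

namespace Pool.Agent.Results.MP_057cde_lc.RegularityClasses

open Pool.Agent.H685R3 MeasureTheory
open Pool.Agent.N620.RC

/-- Turing reducibility of elements of the Cantor space (Mathlib's Turing reducibility, for
characteristic functions). -/
def Reducible (x y : ℕ → Bool) : Prop := TuringReducible (charFn x) (charFn y)

/-- The join `x ⊕ y`. -/
def Join (x y : ℕ → Bool) : ℕ → Bool := fun n => if n % 2 = 0 then x (n / 2) else y (n / 2)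

/-- The `k`-th column of `x`. -/
def Column (x : ℕ → Bool) (k : ℕ) : ℕ → Bool := fun n => x (Nat.pair k n)

open Classical in
/-- The trace of `B` on the sequence of the columns of `x`: its `k`-th bit says whether the `k`-th
column of `x` belongs to `B`. -/
noncomputable def Trace (B : Set (ℕ → Bool)) (x : ℕ → Bool) : ℕ → Bool :=
  fun k => decide (Column x k ∈ B)

/-- `B` exceeds `C` at `z`: there is an `x ≤_T z` such that `Trace C y ⊕ z <_T Trace B x ⊕ z` for
all `y ≤_T z`. -/
def Exceeds (B C : Set (ℕ → Bool)) (z : ℕ → Bool) : Prop :=
  ∃ x, Reducible x z ∧ ∀ y, Reducible y z →
    Reducible (Join (Trace C y) z) (Join (Trace B x) z) ∧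
      ¬ Reducible (Join (Trace B x) z) (Join (Trace C y) z)

/-- All Borel preimages of `B` have the Baire property. -/
def HereditarilyBaire (B : Set (ℕ → Bool)) : Prop :=
  ∀ g : (ℕ → Bool) → ℕ → Bool, Measurable g → BaireMeasurableSet (g ⁻¹' B)

/-- `B` is measurable with respect to (the completion of) every finite Borel measure. -/
def UniversallyMeasurable (B : Set (ℕ → Bool)) : Prop :=
  ∀ μ : Measure (ℕ → Bool), IsFiniteMeasure μ → NullMeasurableSet B μ

/-- For all sets `B` and `C` of reals the set of all `z` at which `B` exceeds `C` is Turing
invariant, and if it is determined, then
(a) if all Borel preimages of `C`, but not of `B`, have the Baire property, then `B` exceeds `C` at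
all members of some cone,
(b) if `C`, but not `B`, is universally measurable, then `B` exceeds `C` at all members of some
cone, and
(c) if all Borel preimages of `C` have the Baire property and `B` is universally measurable, then
all Borel preimages of `B` have the Baire property or `C` is universally measurable. -/
theorem result (B C : Set (ℕ → Bool)) : TuringInvariant {z | Exceeds B C z} ∧
    (Determined {z | Exceeds B C z} →
      (HereditarilyBaire C → ¬ HereditarilyBaire B → ∃ w, ∀ z, Reducible w z → Exceeds B C z) ∧
      (UniversallyMeasurable C → ¬ UniversallyMeasurable B →
        ∃ w, ∀ z, Reducible w z → Exceeds B C z) ∧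
      (HereditarilyBaire C → UniversallyMeasurable B →
        HereditarilyBaire B ∨ UniversallyMeasurable C)) := by
  refine ⟨inv_Exc B C, fun hD => ⟨fun hC hB => ?_, fun hC hB => ?_, fun hC hB => ?_⟩⟩
  · exact cone_of_cofinal hD (exceeds_hb hB hC)
  · exact cone_of_cofinal hD (exceeds_um hB hC)
  · by_contra hcon
    rw [not_or] at hcon
    exact compare hD (exceeds_hb hcon.1 hC) (exceeds_um hcon.2 hB)

end Pool.Agent.Results.MP_057cde_lc.RegularityClasses
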