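import Pool.Agent.N620.WP.Mea

set_option autoImplicit false

/-!
Turing determinacy implies that the perfect set property can only fail because of a Bernstein set,
for Turing invariant sets and for arbitrary sets of reals: an uncountable set of reals contains a
Cantor set or its trace on some Cantor set is a Bernstein set. Moreover it has, for some real `w`,
members `a` with `a ⊕ w ≡_T z` for every `z` in the cone above `w`, it can be mapped continuously
onto the Cantor space, and it does not have strong measure zero (the Borel conjecture). Stated as an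
explicit reduction: to a set of reals we attach certain Turing invariant sets of reals, and if they
are determined, the conclusions hold.
-/

namespace Pool.Agent.Results.MP_057cde_lc.WeakPerfectSet

open Pool.Agent.H685R3 Pool.Agent.N620.WP

/-- Turing reducibility of elements of the Cantor space (Mathlib's Turing reducibility, for
characteristic functions). -/
def Reducible (x y : ℕ → Bool) : Prop := TuringReducible (charFn x) (charFn y)

/-- `x` and `y` have the same Turing degree. -/
def SameDegree (x y : ℕ → Bool) : Prop := Reducible x y ∧ Reducible y x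

/-- The join `x ⊕ y`. -/
def Join (x y : ℕ → Bool) : ℕ → Bool := fun n => if n % 2 = 0 then x (n / 2) else y (n / 2)

/-- The Turing saturation of a set. -/
def Saturation (B : Set (ℕ → Bool)) : Set (ℕ → Bool) := {x | ∃ x' ∈ B, SameDegree x' x}

/-- The sets attached to `A` have the property `P`. The sets attached to `A` are the Turing
saturation of the set of all `y` such that for all `e` the bit `F y e` says correctly whether
`Ψ y e` is a member of `A`, and the Turing saturations of the sets of all `a ⊕ w` with `a ∈ A`, for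
all reals `w`. -/
def Attached (P : Set (ℕ → Bool) → Prop) (Ψ : (ℕ → Bool) → ℕ → ℕ → Bool) (F : (ℕ → Bool) → ℕ → Bool)
    (A : Set (ℕ → Bool)) : Prop :=
  P (Saturation {y | ∀ e, Ψ y e ∈ A ↔ F y e = true}) ∧
    ∀ w, P (Saturation {y | ∃ a ∈ A, y = Join a w})

/-- `h` parametrizes a Cantor set. -/
def IsCantor (h : (ℕ → Bool) → ℕ → Bool) : Prop := Continuous h ∧ Function.Injective h

/-- Neither `B` nor its complement contains a Cantor set. -/
def IsBernstein (B : Set (ℕ → Bool)) : Prop :=
  ∀ k, IsCantor k → (∃ c, k c ∈ B) ∧ ∃ c, k c ∉ B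

/-- The set `A` has strong measure zero. -/
def StrongMeasureZero (A : Set (ℕ → Bool)) : Prop :=
  ∀ g : ℕ → ℕ, ∃ c : ℕ → ℕ → Bool, ∀ a ∈ A, ∃ n, ∀ i < g n, a i = c n i

theorem saturation_eq {E : ℕ → List Bool → ℕ → Bool → Prop} {A : Set (ℕ → Bool)} :
    Saturation {y | ∀ e, Psi (VE E) e y ∈ A ↔ G (VE E) e y 0 = true} = SS E A := by
  ext x
  constructor
  · rintro ⟨x', h, h1, h2⟩
    exact ⟨x', h1, h2, h⟩
  · rintro ⟨x', h1, h2, h⟩
    exact ⟨x', h, h1, h2⟩

theorem saturation_eq' {A : Set (ℕ → Bool)} {w : ℕ → Bool} :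
    Saturation {y | ∃ a ∈ A, y = Join a w} = DD A w := by
  ext x
  constructor
  · rintro ⟨x', ⟨a, ha, rfl⟩, h1, h2⟩
    exact ⟨a, ha, h1, h2⟩
  · rintro ⟨a, ha, h1, h2⟩
    exact ⟨_, ⟨a, ha, rfl⟩, h1, h2⟩

/-- There are Borel maps `Ψ` (from the Cantor space to sequences of elements of the Cantor space) and
`F` such that for every set `A` of reals the sets attached to `A` are Turing invariant, and if they
are determined, then `A` is countable, or else
(a) for some real `w` every `z ≥_T w` has the same Turing degree as `a ⊕ w` for some `a ∈ A`, and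
(b) `A` contains a Cantor set or the trace of `A` on some Cantor set is a Bernstein set, and
(c) some continuous map of the Cantor space into itself maps `A` onto the Cantor space, and
(d) `A` does not have strong measure zero. -/
theorem result :
    ∃ (Ψ : (ℕ → Bool) → ℕ → ℕ → Bool) (F : (ℕ → Bool) → ℕ → Bool), Measurable Ψ ∧ Measurable F ∧
      ∀ A : Set (ℕ → Bool), Attached TuringInvariant Ψ F A ∧
        (Attached Determined Ψ F A → A.Countable ∨
          ((∃ w, ∀ z, Reducible w z → ∃ a ∈ A, SameDegree (Join a w) z) ∧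
          ((∃ h, IsCantor h ∧ ∀ c, h c ∈ A) ∨ ∃ h, IsCantor h ∧ IsBernstein (h ⁻¹' A)) ∧
          (∃ f : (ℕ → Bool) → ℕ → Bool, Continuous f ∧ f '' A = Set.univ) ∧
          ¬ StrongMeasureZero A)) := by
  obtain ⟨E, hE, hE'⟩ := Pool.Agent.Y588.PD.exists_fam
  refine ⟨fun y e => Psi (VE E) e y, fun y e => G (VE E) e y 0, measurable_psi hE, measurable_G,
    fun A => ⟨⟨?_, fun w => ?_⟩, fun hD => ?_⟩⟩
  · rw [saturation_eq]
    exact inv_SS
  · rw [saturation_eq']
    exact inv_DD w
  · obtain ⟨h1, h2⟩ := hD
    rw [saturation_eq] at h1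
    refine (main hE hE' h1 fun w => ?_).imp_right fun hF => ?_
    · have h3 := h2 w
      rwa [saturation_eq'] at h3
    have hP := full_pos hE hE' hF
    refine ⟨hF, ?_, ?_, hP.not_smz⟩
    · by_cases hC : ∃ h, IsCantor h ∧ ∀ c, h c ∈ A
      · exact Or.inl hC
      · obtain ⟨h, h1, h2, h3⟩ := hP
        refine Or.inr ⟨h, ⟨h1, h2⟩, fun k hk => ⟨h3 k hk.1 hk.2, ?_⟩⟩
        by_contra hcon
        push Not at hcon
        exact hC ⟨fun c => h (k c), ⟨h1.comp hk.1, h2.comp hk.2⟩, hcon⟩
    · obtain ⟨f, h1, h2⟩ := hP.surj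
      exact ⟨f, h1, Set.eq_univ_of_forall h2⟩

end Pool.Agent.Results.MP_057cde_lc.WeakPerfectSet
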